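import Pool.Agent.Results.MP_174cbb_lc.Regular

set_option autoImplicit false

/-!
# Linear intervals in clone lattices

The ultrafilter and the clones `D U h` are those of `Pool.Agent.Results.MP_174cbb_lc.Regular`.
-/

namespace Pool.Agent.Y572.CL

open Set Pool.Agent.Helper669.CloneComb Pool.Agent.Results.MP_174cbb_lc.Regular

universe u

theorem main (X : Type u) (hX : (Cardinal.mk X).IsRegular) (S : Set (Oper X))
    (hS : Cardinal.mk S ≤ Cardinal.mk X) :
    ∃ C : Set (Oper X), IsClone C ∧ S ⊆ C ∧ C ≠ univ ∧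
      (∀ M N : Set (Oper X), IsClone M → IsClone N → C ⊆ M → C ⊆ N → M ⊆ N ∨ N ⊆ M) ∧
      ∀ 𝓕 : Set (Set (Oper X)), Cardinal.mk 𝓕 ≤ Cardinal.mk X →
        (∀ M ∈ 𝓕, IsClone M ∧ C ⊆ M ∧ M ≠ univ) →
        ∃ N : Set (Oper X), IsClone N ∧ C ⊆ N ∧ N ≠ univ ∧ ∀ M ∈ 𝓕, M ⊂ N := by
  classical
  obtain ⟨_, _, hord⟩ := Cardinal.exists_ord_eq_type_lt X
  have hinf : Infinite X := Cardinal.infinite_iff.2 hX.aleph0_le
  have hbd : Bd X := by
    intro f N
    by_contra hcon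
    push Not at hcon
    have h1 : IsCofinal (f '' Iic N) := fun b => by
      obtain ⟨x, hx, hb⟩ := hcon b
      exact ⟨f x, ⟨x, hx, rfl⟩, hb⟩
    have h2 := Order.cof_le h1
    rw [← Ordinal.cof_type, ← hord, hX.cof_ord] at h2
    have h3 : Cardinal.mk (Iic N) < Cardinal.mk X := by
      have h3 : Iic N = insert N (Iio N) := by
        ext y; simp [le_iff_eq_or_lt]
      rw [h3]
      exact (Cardinal.mk_insert_le).trans_lt (Cardinal.add_lt_of_lt hX.aleph0_le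
        (Cardinal.mk_Iio_lt N hord) (Cardinal.one_lt_aleph0.trans_le hX.aleph0_le))
    exact absurd (h2.trans Cardinal.mk_image_le) (not_le.2 h3)
  obtain ⟨I, _, _, h, hI, hordI, hm, hi, hdom, hsm⟩ := exists_dominating hbd
  obtain ⟨f, U, hUn, hUs⟩ := exists_ultra hbd hI hordI hsm h hm hi
  have hU : ∀ Y ∈ U, ∀ x, ∃ y ∈ Y, x < y := by
    intro Y hY x
    obtain ⟨ξ, hξ⟩ := hbd id x
    obtain ⟨y, hy1, hy2⟩ := U.nonempty_of_mem (Filter.inter_mem hY (hUn ξ))
    exact ⟨y, hy1, (hξ x le_rfl).trans_le hy2⟩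
  have hne : ∀ α, D U (h α) ≠ univ := by
    intro α hα
    have h1 : (⟨0, fun x => f α (x 0)⟩ : Oper X) ∈ D U (h α) := by rw [hα]; exact mem_univ _
    obtain ⟨Y, hY, k, hk⟩ := h1
    refine hUs α k Y hY fun x T hT hsep => ?_
    refine card_le_of_iterate (Y := Y) (hm α) (hi α) k x T (fun t ht => ?_) hsep
    obtain ⟨h2, h3, h4⟩ := hT t ht
    exact ⟨h2, h3, h4.trans_le (hk (fun _ => x) x fun _ => le_rfl)⟩
  have hsub : ∀ α, D U id ⊆ D U (h α) := by
    rintro α ⟨n, g⟩ ⟨Y, hY, k, hk⟩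
    refine ⟨Y, hY, k, fun x N hN => (hk x N hN).trans ?_⟩
    clear hk hN
    induction k generalizing N with
    | zero => exact le_rfl
    | succ k ih =>
      rw [Function.iterate_succ_apply, Function.iterate_succ_apply]
      exact (ih _).trans ((step_mono hU hY (hm α)).iterate k
        (nx_mono (hU Y hY) (hi α N).le))
  have hDα : ∀ α, IsClone (D U (h α)) := fun α => isClone_D hU (hm α) fun x => (hi α x).le
  -- the interval above `D U id` is a chain
  have hchain : ∀ M N : Set (Oper X), IsClone M → IsClone N → D U id ⊆ M → D U id ⊆ N →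
      M ⊆ N ∨ N ⊆ M := by
    intro M N hM hN hCM hCN
    by_contra hcon
    push Not at hcon
    obtain ⟨⟨n, e⟩, heM, heN⟩ := not_subset.1 hcon.1
    obtain ⟨⟨m, g⟩, hgN, hgM⟩ := not_subset.1 hcon.2
    rcases chain_or hU e g with h2 | h2
    · exact heN (h2 N hN hCN hgN)
    · exact hgM (h2 M hM hCM heM)
  -- few operations are in one of the clones
  have key : ∀ (J : Type u) (G : J → Oper X), Cardinal.mk J ≤ Cardinal.mk X →
      ∃ α, ∀ j, G j ∈ D U (h α) := by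
    intro J G hJ
    obtain ⟨e⟩ := (Cardinal.le_def _ _).1 hJ
    have h1 : ∀ (j : J) (N : X), ∃ ξ, ∀ z : Fin ((G j).1 + 1) → X, (∀ i, z i ≤ N) →
        (G j).2 z < ξ := fun j N => bd_multi hbd _ (G j).2 N
    choose φ hφ using h1
    have h2 : ∀ N : X, ∃ y, ∀ j, e j ≤ N → φ j N < y := by
      intro N
      obtain ⟨y, hy⟩ := hbd (fun x => if hx : ∃ j, e j = x then φ hx.choose N else x) N
      refine ⟨y, fun j hj => ?_⟩
      have h3 := hy (e j) hj
      have h4 : ∃ j', e j' = e j := ⟨j, rfl⟩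
      rw [dif_pos h4] at h3
      rwa [e.injective h4.choose_spec] at h3
    choose ψ hψ using h2
    obtain ⟨α, hα⟩ := hdom ψ
    refine ⟨α, fun j => ⟨{x | φ j (e j) ≤ x}, hUn _, 1, fun z N hN => ?_⟩⟩
    have hnx := nx_spec (hU _ (hUn (φ j (e j)))) (h α N)
    change (G j).2 z ≤ nx {x | φ j (e j) ≤ x} (h α N)
    rcases le_total (e j) N with hjN | hjN
    · exact (((hφ j N z hN).trans (hψ N j hjN)).le.trans (hα N)).trans hnx.2.le
    · exact (hφ j (e j) z fun i => (hN i).trans hjN).le.trans hnx.1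
  obtain ⟨α, hα⟩ := key S (fun s => s.1) hS
  refine ⟨D U (h α), hDα α, fun s hs => hα ⟨s, hs⟩, hne α, fun M N hM hN hCM hCN =>
    hchain M N hM hN ((hsub α).trans hCM) ((hsub α).trans hCN), fun 𝓕 h𝓕 hF => ?_⟩
  -- upper bounds
  let 𝓖 : Set (Set (Oper X)) := insert (D U (h α)) 𝓕
  have h𝓖 : Cardinal.mk 𝓖 ≤ Cardinal.mk X := Cardinal.mk_insert_le.trans
    ((add_le_add_left h𝓕 1).trans (Cardinal.add_one_eq hX.aleph0_le).le)
  have hG : ∀ M : 𝓖, ∃ g : Oper X, g ∉ M.1 := by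
    rintro ⟨M, hM⟩
    have hMne : M ≠ univ := by
      rcases mem_insert_iff.1 hM with rfl | hM
      · exact hne α
      · exact (hF M hM).2.2
    exact (ne_univ_iff_exists_notMem M).1 hMne
  choose g hg using hG
  obtain ⟨β, hβ⟩ := key 𝓖 g h𝓖
  have hle : ∀ M ∈ 𝓖, IsClone M → D U id ⊆ M → M ⊆ D U (h β) := by
    intro M hM hMc hCM
    rcases hchain M _ hMc (hDα β) hCM (hsub β) with h1 | h1
    · exact h1
    · exact absurd (h1 (hβ ⟨M, hM⟩)) (hg ⟨M, hM⟩)
  refine ⟨D U (h β), hDα β, hle _ (mem_insert _ _) (hDα α) (hsub α), hne β, fun M hM => ?_⟩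
  have hM' : M ∈ 𝓖 := mem_insert_of_mem _ hM
  exact ⟨hle M hM' (hF M hM).1 ((hsub α).trans (hF M hM).2.1),
    fun h1 => hg ⟨M, hM'⟩ (h1 (hβ ⟨M, hM'⟩))⟩

theorem main' (X : Type u) (hX : (Cardinal.mk X).IsRegular) : ¬ DuallyAtomic X := by
  intro hda
  obtain ⟨C, hC, -, hne, -, hb⟩ := main X hX ∅ (by simp)
  obtain ⟨M, ⟨hM, hMne, hMmax⟩, hCM⟩ := hda C hC hne
  obtain ⟨N, hN, -, hNne, hMN⟩ := hb {M} (by
    rw [Cardinal.mk_singleton]
    exact Cardinal.one_le_aleph0.trans hX.aleph0_le) (by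
    rintro _ rfl
    exact ⟨hM, hCM, hMne⟩)
  exact hNne (hMmax N hN (hMN M rfl))

end Pool.Agent.Y572.CL
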